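import Mathlib

/-!
# Orlin's conjecture holds for perfect graphs

Every perfect equistable graph is a general partition graph. The proof uses the replication lemma
in the form: in a perfect graph every weight function `c : V → ℕ` is covered by `m` stable sets
as soon as every clique has weight at most `m`.
-/

namespace Pool.Agent.Results.MP_ee7763_co.PerfectOrlin

open Finset

variable {V : Type} [Fintype V]

/-- `S` is a maximal stable set of `G`. -/
def MaxStable (G : SimpleGraph V) (S : Finset V) : Prop :=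
  Maximal (fun s : Finset V => G.IsIndepSet (s : Set V)) S

/-- `G` is equistable. -/
def Equistable (G : SimpleGraph V) : Prop :=
  ∃ φ : V → ℝ, (∀ v, 0 < φ v) ∧ ∀ S : Finset V, MaxStable G S ↔ ∑ v ∈ S, φ v = 1

/-- `G` is a general partition graph. -/
def GeneralPartition (G : SimpleGraph V) : Prop :=
  ∃ (U : Type) (F : V → Set U), (∀ x, (F x).Nonempty) ∧
    (∀ x y, x ≠ y → (G.Adj x y ↔ (F x ∩ F y).Nonempty)) ∧
    ∀ S : Finset V, MaxStable G S →
      (∀ x ∈ S, ∀ y ∈ S, x ≠ y → Disjoint (F x) (F y)) ∧ (⋃ x ∈ S, F x) = Set.univ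

/-- `G` is perfect: every induced subgraph has chromatic number equal to its clique number. -/
def Perfect (G : SimpleGraph V) : Prop :=
  ∀ W : Set V, (G.induce W).chromaticNumber = ((G.induce W).cliqueNum : ℕ∞)

section

open Classical in
/-- `c` is covered by `m` stable sets. -/
def Cov (G : SimpleGraph V) (c : V → ℕ) (m : ℕ) : Prop :=
  ∃ R : Fin m → Finset V, (∀ i, G.IsIndepSet (R i : Set V)) ∧
    ∀ v, c v ≤ ∑ i, if v ∈ R i then 1 else 0

open Classical in
theorem card_inter_le {G : SimpleGraph V} {R K : Finset V} (hR : G.IsIndepSet (R : Set V))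
    (hK : G.IsClique (K : Set V)) : (∑ v ∈ K, if v ∈ R then 1 else 0) ≤ 1 := by
  rw [Finset.sum_ite_mem, Finset.sum_const, smul_eq_mul, mul_one]
  rw [Finset.card_le_one]
  intro a ha b hb
  rw [Finset.mem_inter] at ha hb
  by_contra hab
  exact hR (by exact_mod_cast ha.2) (by exact_mod_cast hb.2) hab
    (hK (by exact_mod_cast ha.1) (by exact_mod_cast hb.1) hab)

open Classical in
theorem cov_base {G : SimpleGraph V} (hG : Perfect G) (c : V → ℕ) (hc : ∀ v, c v ≤ 1) (m : ℕ)
    (hm : ∀ K : Finset V, G.IsClique (K : Set V) → ∑ v ∈ K, c v ≤ m) : Cov G c m := by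
  set W : Set V := {v | c v = 1} with hW
  have hcl : (G.induce W).cliqueNum ≤ m := by
    obtain ⟨s, hs⟩ := (G.induce W).exists_isNClique_cliqueNum
    have h1 : G.IsClique ((s.map (Function.Embedding.subtype _) : Finset V) : Set V) := by
      intro a ha b hb hab
      simp only [Finset.coe_map, Function.Embedding.subtype_apply, Set.mem_image] at ha hb
      obtain ⟨a', ha', rfl⟩ := ha
      obtain ⟨b', hb', rfl⟩ := hb
      exact hs.1 ha' hb' (fun h => hab (congrArg _ h))
    have h2 := hm _ h1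
    rw [Finset.sum_map] at h2
    have h3 : ∑ x ∈ s, c ((Function.Embedding.subtype _) x) = s.card := by
      rw [Finset.card_eq_sum_ones]
      exact Finset.sum_congr rfl fun x _ => x.2
    rw [h3, hs.2] at h2
    exact h2
  have hcol : (G.induce W).Colorable m := by
    rw [← SimpleGraph.chromaticNumber_le_iff_colorable, hG W]
    exact_mod_cast hcl
  obtain ⟨col⟩ := hcol
  refine ⟨fun i => Finset.univ.filter fun v => ∃ h : v ∈ W, col ⟨v, h⟩ = i, ?_, ?_⟩
  · intro i a ha b hb hab hadj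
    simp only [Finset.coe_filter, Finset.mem_univ, true_and, Set.mem_ofPred_eq] at ha hb
    obtain ⟨ha, ha'⟩ := ha
    obtain ⟨hb, hb'⟩ := hb
    exact col.valid (v := ⟨a, ha⟩) (w := ⟨b, hb⟩) hadj (ha'.trans hb'.symm)
  · intro v
    by_cases hv : v ∈ W
    · have : (1 : ℕ) = ∑ i, if i = col ⟨v, hv⟩ then 1 else 0 := by
        rw [Finset.sum_ite_eq' Finset.univ (col ⟨v, hv⟩) (fun _ => 1)]
        simp
      calc c v ≤ 1 := hc v
        _ = _ := this
        _ ≤ _ := by
          apply Finset.sum_le_sum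
          intro i _
          by_cases hi : i = col ⟨v, hv⟩
          · rw [if_pos hi, if_pos]
            rw [Finset.mem_filter]
            exact ⟨Finset.mem_univ _, hv, hi.symm⟩
          · rw [if_neg hi]
            exact Nat.zero_le _
    · have : c v = 0 := by
        have h1 := hc v
        have h2 : ¬ c v = 1 := hv
        omega
      rw [this]
      exact Nat.zero_le _

open Classical in
/-- The replication lemma. -/
theorem cov {G : SimpleGraph V} (hG : Perfect G) : ∀ (N : ℕ) (c : V → ℕ), ∑ v, c v ≤ N →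
    ∀ m : ℕ, (∀ K : Finset V, G.IsClique (K : Set V) → ∑ v ∈ K, c v ≤ m) → Cov G c m := by
  intro N
  induction N with
  | zero =>
    intro c hN m hm
    apply cov_base hG c _ m hm
    intro v
    have : c v ≤ ∑ v, c v := Finset.single_le_sum (fun _ _ => Nat.zero_le _) (Finset.mem_univ v)
    omega
  | succ N ih =>
    intro c hN m hm
    by_cases hv : ∃ v, 2 ≤ c v
    swap
    · apply cov_base hG c _ m hm
      intro v
      by_contra h
      exact hv ⟨v, by omega⟩
    obtain ⟨v, hv⟩ := hv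
    set c₁ : V → ℕ := fun x => c x - if x = v then 1 else 0 with hc₁
    have hc₁v : c₁ v + 1 = c v := by simp only [hc₁, if_true]; omega
    have hc₁x : ∀ x, x ≠ v → c₁ x = c x := fun x hx => by simp [hc₁, hx]
    have hc₁le : ∀ x, c₁ x ≤ c x := fun x => Nat.sub_le _ _
    have hsum₁ : ∑ x, c₁ x < ∑ x, c x :=
      Finset.sum_lt_sum (fun x _ => hc₁le x) ⟨v, Finset.mem_univ v, by omega⟩
    have hm₁ : ∀ K : Finset V, G.IsClique (K : Set V) → ∑ v ∈ K, c₁ v ≤ m := fun K hK =>
      (Finset.sum_le_sum fun x _ => hc₁le x).trans (hm K hK)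
    obtain ⟨R, hR, hcov⟩ := ih c₁ (by omega) m hm₁
    obtain ⟨i, hi⟩ : ∃ i, v ∈ R i := by
      by_contra hne
      push Not at hne
      have h := hcov v
      rw [Finset.sum_eq_zero (fun i _ => if_neg (hne i))] at h
      omega
    have hmpos : 0 < m := Nat.lt_of_le_of_lt (Nat.zero_le _) i.2
    set c₂ : V → ℕ := fun x => c₁ x - if x ∈ R i ∧ x ≠ v then 1 else 0 with hc₂
    have hc₂le : ∀ x, c₂ x ≤ c₁ x := fun x => Nat.sub_le _ _
    have hm₂ : ∀ K : Finset V, G.IsClique (K : Set V) → ∑ v ∈ K, c₂ v ≤ m - 1 := by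
      intro K hK
      have hle : ∑ x ∈ K, c₂ x ≤ ∑ x ∈ K, c₁ x := Finset.sum_le_sum fun x _ => hc₂le x
      by_cases hK1 : ∑ x ∈ K, c₁ x ≤ m - 1
      · exact hle.trans hK1
      have hK2 : ∑ x ∈ K, c₁ x = m := by
        have := hm₁ K hK
        omega
      have hvK : v ∉ K := by
        intro hvK
        have h1 : ∑ x ∈ K, c₁ x < ∑ x ∈ K, c x :=
          Finset.sum_lt_sum (fun x _ => hc₁le x) ⟨v, hvK, by omega⟩
        have h2 := hm K hK
        omega
      -- double count
      have hdc : ∑ x ∈ K, ∑ j, (if x ∈ R j then 1 else 0) = ∑ j, ∑ x ∈ K, (if x ∈ R j then 1 else 0) :=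
        Finset.sum_comm
      have hub : ∀ j, (∑ x ∈ K, if x ∈ R j then 1 else 0) ≤ 1 := fun j => card_inter_le (hR j) hK
      have hge : ∑ x ∈ K, c₁ x ≤ ∑ x ∈ K, ∑ j, (if x ∈ R j then 1 else 0) :=
        Finset.sum_le_sum fun x _ => hcov x
      have htot : ∑ j : Fin m, ∑ x ∈ K, (if x ∈ R j then 1 else 0) ≤ ∑ j : Fin m, 1 :=
        Finset.sum_le_sum fun j _ => hub j
      have hm' : ∑ j : Fin m, 1 = m := by simp
      have heq1 : ∑ x ∈ K, c₁ x = ∑ x ∈ K, ∑ j, (if x ∈ R j then 1 else 0) := by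
        apply le_antisymm hge
        rw [hdc, hK2]
        rw [hm'] at htot
        exact htot
      have heq2 : ∑ j : Fin m, ∑ x ∈ K, (if x ∈ R j then 1 else 0) = ∑ j : Fin m, 1 := by
        rw [← hdc, ← heq1, hm', hK2]
      have hpt1 := (Finset.sum_eq_sum_iff_of_le (fun x _ => hcov x)).1 heq1
      have hpt2 := (Finset.sum_eq_sum_iff_of_le (fun j _ => hub j)).1 heq2 i (Finset.mem_univ _)
      obtain ⟨f, hfK, hfR⟩ : ∃ f ∈ K, f ∈ R i := by
        by_contra hne
        push Not at hne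
        rw [Finset.sum_eq_zero (fun x hx => if_neg (hne x hx))] at hpt2
        omega
      have hfv : f ≠ v := fun h => hvK (h ▸ hfK)
      have hf1 : 1 ≤ c₁ f := by
        rw [hpt1 f hfK]
        calc 1 = (if f ∈ R i then 1 else 0) := by rw [if_pos hfR]
          _ ≤ _ := Finset.single_le_sum (f := fun j => if f ∈ R j then 1 else 0)
            (fun _ _ => Nat.zero_le _) (Finset.mem_univ i)
      have hlt : ∑ x ∈ K, c₂ x < ∑ x ∈ K, c₁ x := by
        refine Finset.sum_lt_sum (fun x _ => hc₂le x) ⟨f, hfK, ?_⟩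
        simp only [hc₂]
        rw [if_pos ⟨hfR, hfv⟩]
        omega
      omega
    obtain ⟨m', rfl⟩ : ∃ m', m = m' + 1 := ⟨m - 1, by omega⟩
    have hsum₂ : ∑ x, c₂ x ≤ ∑ x, c₁ x := Finset.sum_le_sum fun x _ => hc₂le x
    obtain ⟨R', hR', hcov'⟩ := ih c₂ (by omega) m' (by simpa using hm₂)
    refine ⟨Fin.cons (R i) R', ?_, ?_⟩
    · intro j
      refine Fin.cases ?_ (fun j => ?_) j
      · simpa using hR i
      · simpa using hR' j
    · intro x
      rw [Fin.sum_univ_succ]
      simp only [Fin.cons_zero, Fin.cons_succ]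
      have h1 := hcov' x
      have h2 : c x ≤ (if x ∈ R i then 1 else 0) + c₂ x := by
        by_cases hx : x = v
        · subst hx
          rw [if_pos hi]
          simp only [hc₂]
          rw [if_neg (by simp)]
          omega
        · have h3 := hc₁x x hx
          by_cases hxR : x ∈ R i
          · rw [if_pos hxR]
            simp only [hc₂]
            rw [if_pos ⟨hxR, hx⟩]
            omega
          · rw [if_neg hxR]
            simp only [hc₂]
            rw [if_neg (fun h => hxR h.1)]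
            omega
      omega

/-- A strong clique: a clique meeting every maximal stable set. -/
def Strong (G : SimpleGraph V) (C : Finset V) : Prop :=
  G.IsClique (C : Set V) ∧ ∀ S : Finset V, MaxStable G S → ∃ x ∈ C, x ∈ S

theorem exists_max {G : SimpleGraph V} {R : Finset V} (hR : G.IsIndepSet (R : Set V)) :
    ∃ S : Finset V, R ⊆ S ∧ MaxStable G S := by
  obtain ⟨S, hS1, hS2⟩ := (Set.toFinite {s : Finset V | G.IsIndepSet (s : Set V)}).exists_le_maximal
    (a := R) hR
  exact ⟨S, hS1, hS2⟩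

open Classical in
/-- The finite set of all maximal stable sets. -/
noncomputable def MS (G : SimpleGraph V) : Finset (Finset V) := Finset.univ.filter (MaxStable G)

open Classical in
theorem mem_MS {G : SimpleGraph V} {S : Finset V} : S ∈ MS G ↔ MaxStable G S := by
  simp [MS]

open Classical in
/-- The weight `χ_A + K Σ_Q χ_Q`. -/
noncomputable def wt (G : SimpleGraph V) (A : Finset V) (K : ℕ) (x : V) : ℕ :=
  (if x ∈ A then 1 else 0) + K * ∑ Q ∈ MS G, if x ∈ Q then 1 else 0

open Classical in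
theorem sum_wt (G : SimpleGraph V) (A : Finset V) (K : ℕ) (C : Finset V) :
    ∑ x ∈ C, wt G A K x
      = (∑ x ∈ C, if x ∈ A then 1 else 0) + K * ∑ Q ∈ MS G, ∑ x ∈ C, if x ∈ Q then 1 else 0 := by
  unfold wt
  rw [Finset.sum_add_distrib, ← Finset.mul_sum, Finset.sum_comm]

open Classical in
theorem sum_hit_le {G : SimpleGraph V} {C : Finset V} (hC : G.IsClique (C : Set V)) :
    (∑ Q ∈ MS G, ∑ x ∈ C, if x ∈ Q then 1 else 0) ≤ (MS G).card := by
  calc (∑ Q ∈ MS G, ∑ x ∈ C, if x ∈ Q then 1 else 0) ≤ ∑ Q ∈ MS G, 1 :=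
        Finset.sum_le_sum fun Q hQ => card_inter_le (mem_MS.1 hQ).prop hC
    _ = _ := by simp

open Classical in
theorem sum_hit_lt {G : SimpleGraph V} {C : Finset V} (hC : G.IsClique (C : Set V))
    (hns : ¬ Strong G C) :
    (∑ Q ∈ MS G, ∑ x ∈ C, if x ∈ Q then 1 else 0) < (MS G).card := by
  have : ∃ S, MaxStable G S ∧ ∀ x ∈ C, x ∉ S := by
    by_contra h
    push Not at h
    exact hns ⟨hC, fun S hS => h S hS⟩
  obtain ⟨S, hS, hdis⟩ := this
  calc (∑ Q ∈ MS G, ∑ x ∈ C, if x ∈ Q then 1 else 0) < ∑ Q ∈ MS G, 1 := by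
        refine Finset.sum_lt_sum (fun Q hQ => card_inter_le (mem_MS.1 hQ).prop hC)
          ⟨S, mem_MS.2 hS, ?_⟩
        rw [Finset.sum_eq_zero (fun x hx => if_neg (hdis x hx))]
        exact Nat.zero_lt_one
    _ = _ := by simp

open Classical in
theorem hit_eq {G : SimpleGraph V} {C Q : Finset V} (hC : Strong G C) (hQ : MaxStable G Q) :
    (∑ x ∈ C, if x ∈ Q then 1 else 0) = 1 := by
  apply le_antisymm (card_inter_le hQ.prop hC.1)
  obtain ⟨x, hxC, hxQ⟩ := hC.2 Q hQ
  calc 1 = (if x ∈ Q then 1 else 0) := by rw [if_pos hxQ]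
    _ ≤ _ := Finset.single_le_sum (f := fun y => if y ∈ Q then 1 else 0)
      (fun _ _ => Nat.zero_le _) hxC

open Classical in
/-- Cover by maximal stable sets. -/
theorem cov_max {G : SimpleGraph V} {c : V → ℕ} {m : ℕ} (h : Cov G c m) :
    ∃ R : Fin m → Finset V, (∀ i, MaxStable G (R i)) ∧
      ∀ v, c v ≤ ∑ i, if v ∈ R i then 1 else 0 := by
  obtain ⟨R, hR, hc⟩ := h
  choose R' h1 h2 using fun i => exists_max (hR i)
  refine ⟨R', h2, fun v => (hc v).trans (Finset.sum_le_sum fun i _ => ?_)⟩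
  by_cases hv : v ∈ R i
  · rw [if_pos hv, if_pos (h1 i hv)]
  · rw [if_neg hv]; exact Nat.zero_le _

open Classical in
theorem weigh {φ : V → ℝ} (S : Finset V) :
    ∑ x, φ x * ((if x ∈ S then 1 else 0 : ℕ) : ℝ) = ∑ x ∈ S, φ x := by
  have h : ∀ x, φ x * ((if x ∈ S then 1 else 0 : ℕ) : ℝ) = if x ∈ S then φ x else 0 := by
    intro x
    by_cases hx : x ∈ S <;> simp [hx]
  rw [Finset.sum_congr rfl fun x _ => h x, Finset.sum_ite_mem, Finset.univ_inter]

open Classical in
theorem weigh_sum {φ : V → ℝ} {ι : Type*} (s : Finset ι) (R : ι → Finset V)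
    (hR : ∀ i ∈ s, ∑ x ∈ R i, φ x = 1) :
    ∑ x, φ x * ((∑ i ∈ s, if x ∈ R i then 1 else 0 : ℕ) : ℝ) = s.card := by
  have h : ∀ x, φ x * ((∑ i ∈ s, if x ∈ R i then 1 else 0 : ℕ) : ℝ)
      = ∑ i ∈ s, φ x * ((if x ∈ R i then 1 else 0 : ℕ) : ℝ) := by
    intro x
    rw [Nat.cast_sum, Finset.mul_sum]
  rw [Finset.sum_congr rfl fun x _ => h x, Finset.sum_comm]
  rw [Finset.sum_congr rfl fun i hi => (weigh (R i)).trans (hR i hi)]
  simp

variable {G : SimpleGraph V} {φ : V → ℝ}

open Classical in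
/-- Every vertex lies in a strong clique. -/
theorem vertex_strong (hG : Perfect G) (hpos : ∀ v, 0 < φ v)
    (hφ : ∀ S : Finset V, MaxStable G S → ∑ v ∈ S, φ v = 1) (f : V) :
    ∃ C, Strong G C ∧ f ∈ C := by
  by_contra hne
  push Not at hne
  have hm : ∀ C : Finset V, G.IsClique (C : Set V) →
      ∑ x ∈ C, wt G {f} 1 x ≤ (MS G).card := by
    intro C hC
    rw [sum_wt, one_mul]
    by_cases hf : f ∈ C
    · have h1 := sum_hit_lt hC (fun h => hne C h hf)
      have h2 : (∑ x ∈ C, if x ∈ ({f} : Finset V) then 1 else 0) ≤ 1 := by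
        rw [Finset.sum_ite_mem, Finset.sum_const, smul_eq_mul, mul_one]
        exact (Finset.card_le_card Finset.inter_subset_right).trans (by simp)
      omega
    · have h1 := sum_hit_le hC
      have h2 : (∑ x ∈ C, if x ∈ ({f} : Finset V) then 1 else 0) = 0 := by
        apply Finset.sum_eq_zero
        intro x hx
        rw [if_neg]
        rw [Finset.mem_singleton]
        exact fun h => hf (h ▸ hx)
      omega
  obtain ⟨R, hR, hc⟩ := cov_max (cov hG _ _ le_rfl _ hm)
  have h1 := weigh_sum (φ := φ) Finset.univ R (fun i _ => hφ _ (hR i))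
  have h2 := weigh_sum (φ := φ) (MS G) (fun Q => Q) (fun Q hQ => hφ _ (mem_MS.1 hQ))
  have h3 := weigh (φ := φ) ({f} : Finset V)
  rw [Finset.sum_singleton] at h3
  have h4 : ∑ x, φ x * ((wt G {f} 1 x : ℕ) : ℝ)
      ≤ ∑ x, φ x * ((∑ i, if x ∈ R i then 1 else 0 : ℕ) : ℝ) :=
    Finset.sum_le_sum fun x _ => mul_le_mul_of_nonneg_left (by exact_mod_cast hc x) (hpos x).le
  have h5 : ∑ x, φ x * ((wt G {f} 1 x : ℕ) : ℝ) = φ f + (MS G).card := by
    rw [← h3, ← h2, ← Finset.sum_add_distrib]
    apply Finset.sum_congr rfl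
    intro x _
    unfold wt
    rw [one_mul, Nat.cast_add, mul_add]
  rw [h5, h1, Finset.card_univ, Fintype.card_fin] at h4
  linarith [hpos f]

open Classical in
/-- Every edge lies in a strong clique. -/
theorem edge_strong (hG : Perfect G) (hpos : ∀ v, 0 < φ v)
    (hφ : ∀ S : Finset V, MaxStable G S ↔ ∑ v ∈ S, φ v = 1) {u v : V} (huv : G.Adj u v) :
    ∃ C, Strong G C ∧ u ∈ C ∧ v ∈ C := by
  by_contra hne
  push Not at hne
  have hm : ∀ C : Finset V, G.IsClique (C : Set V) →
      ∑ x ∈ C, wt G {u, v} 2 x ≤ 2 * (MS G).card + 1 := by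
    intro C hC
    rw [sum_wt]
    have h2 : (∑ x ∈ C, if x ∈ ({u, v} : Finset V) then 1 else 0) = (C ∩ {u, v}).card := by
      rw [Finset.sum_ite_mem, Finset.sum_const, smul_eq_mul, mul_one]
    by_cases hf : u ∈ C ∧ v ∈ C
    · have h1 := sum_hit_lt hC (fun h => hne C h hf.1 hf.2)
      have h3 : (C ∩ {u, v}).card ≤ 2 :=
        (Finset.card_le_card Finset.inter_subset_right).trans Finset.card_le_two
      omega
    · have h1 := sum_hit_le hC
      have h3 : (C ∩ {u, v}).card ≤ 1 := by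
        rw [Finset.card_le_one]
        intro a ha b hb
        rw [Finset.mem_inter, Finset.mem_insert, Finset.mem_singleton] at ha hb
        obtain ⟨haC, rfl | rfl⟩ := ha <;> obtain ⟨hbC, rfl | rfl⟩ := hb
        · rfl
        · exact absurd ⟨haC, hbC⟩ hf
        · exact absurd ⟨hbC, haC⟩ hf
        · rfl
      omega
  obtain ⟨R, hR, hc⟩ := cov_max (cov hG _ _ le_rfl _ hm)
  -- the difference
  set d : V → ℕ := fun x => (∑ i, if x ∈ R i then 1 else 0) - 2 * ∑ Q ∈ MS G, if x ∈ Q then 1 else 0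
    with hd
  have hdd : ∀ x, d x + 2 * (∑ Q ∈ MS G, if x ∈ Q then 1 else 0) = ∑ i, if x ∈ R i then 1 else 0 := by
    intro x
    have := hc x
    unfold wt at this
    simp only [hd]
    omega
  have hd1 : ∀ x, (if x ∈ ({u, v} : Finset V) then 1 else 0) ≤ d x := by
    intro x
    have h1 := hc x
    have h2 := hdd x
    unfold wt at h1
    omega
  have hd2 : ∀ x, d x ≤ 1 := by
    intro x
    obtain ⟨C, hC, hxC⟩ := vertex_strong hG hpos (fun S => (hφ S).1) x
    have h1 : ∑ y ∈ C, (d y + 2 * ∑ Q ∈ MS G, if y ∈ Q then 1 else 0)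
        = ∑ y ∈ C, ∑ i, if y ∈ R i then 1 else 0 := Finset.sum_congr rfl fun y _ => hdd y
    rw [Finset.sum_add_distrib, ← Finset.mul_sum, Finset.sum_comm,
      Finset.sum_comm (s := C) (t := Finset.univ)] at h1
    rw [Finset.sum_congr rfl fun Q hQ => hit_eq hC (mem_MS.1 hQ),
      Finset.sum_congr rfl fun i _ => hit_eq hC (hR i)] at h1
    simp only [Finset.sum_const, smul_eq_mul, mul_one, Finset.card_univ, Fintype.card_fin] at h1
    have h2 : d x ≤ ∑ y ∈ C, d y := Finset.single_le_sum (fun _ _ => Nat.zero_le _) hxC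
    omega
  set T : Finset V := Finset.univ.filter fun x => d x = 1 with hT
  have hdT : ∀ x, d x = if x ∈ T then 1 else 0 := by
    intro x
    by_cases hx : d x = 1
    · rw [if_pos (by simp [hT, hx]), hx]
    · rw [if_neg (by simp [hT, hx])]
      have := hd2 x
      omega
  have hφT : ∑ x ∈ T, φ x = 1 := by
    have h1 := weigh_sum (φ := φ) Finset.univ R (fun i _ => (hφ _).1 (hR i))
    have h2 := weigh_sum (φ := φ) (MS G) (fun Q => Q) (fun Q hQ => (hφ _).1 (mem_MS.1 hQ))
    have h3 := weigh (φ := φ) T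
    have h4 : ∑ x, φ x * ((∑ i, if x ∈ R i then 1 else 0 : ℕ) : ℝ)
        = ∑ x, φ x * ((if x ∈ T then 1 else 0 : ℕ) : ℝ)
          + 2 * ∑ x, φ x * ((∑ Q ∈ MS G, if x ∈ Q then 1 else 0 : ℕ) : ℝ) := by
      rw [Finset.mul_sum, ← Finset.sum_add_distrib]
      apply Finset.sum_congr rfl
      intro x _
      rw [← hdT x, ← hdd x]
      push_cast
      ring
    rw [h1, h2, h3, Finset.card_univ, Fintype.card_fin] at h4
    push_cast at h4
    linarith
  have hTmax := (hφ T).2 hφT
  have hu : u ∈ T := by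
    rw [hT, Finset.mem_filter]
    have h1 := hd1 u
    have h2 := hd2 u
    rw [if_pos (by simp)] at h1
    exact ⟨Finset.mem_univ _, by omega⟩
  have hv : v ∈ T := by
    rw [hT, Finset.mem_filter]
    have h1 := hd1 v
    have h2 := hd2 v
    rw [if_pos (by simp)] at h1
    exact ⟨Finset.mem_univ _, by omega⟩
  exact hTmax.prop (by exact_mod_cast hu) (by exact_mod_cast hv) huv.ne huv

end

/-- Orlin's conjecture holds within the class of perfect graphs. -/
theorem result : ∀ (V : Type) [Fintype V] (G : SimpleGraph V),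
    Perfect G → Equistable G → GeneralPartition G := by
  intro V _ G hG hE
  obtain ⟨φ, hpos, hφ⟩ := hE
  refine ⟨{C : Finset V // Strong G C}, fun x => {C | x ∈ C.1}, ?_, ?_, ?_⟩
  · intro x
    obtain ⟨C, hC, hx⟩ := vertex_strong hG hpos (fun S => (hφ S).1) x
    exact ⟨⟨C, hC⟩, hx⟩
  · intro x y hxy
    constructor
    · intro h
      obtain ⟨C, hC, hx, hy⟩ := edge_strong hG hpos hφ h
      exact ⟨⟨C, hC⟩, hx, hy⟩
    · rintro ⟨C, hx, hy⟩
      exact C.2.1 (by exact_mod_cast hx) (by exact_mod_cast hy) hxy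
  · intro S hS
    constructor
    · intro x hx y hy hxy
      rw [Set.disjoint_left]
      intro C hCx hCy
      exact hS.prop (by exact_mod_cast hx) (by exact_mod_cast hy) hxy
        (C.2.1 (by exact_mod_cast hCx) (by exact_mod_cast hCy) hxy)
    · rw [Set.eq_univ_iff_forall]
      intro C
      obtain ⟨x, hxC, hxS⟩ := C.2.2 S hS
      exact Set.mem_biUnion (by exact_mod_cast hxS) hxC

end Pool.Agent.Results.MP_ee7763_co.PerfectOrlin
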